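import Pool.Agent.X272.Alt.Free

namespace Pool.Agent.Results.MP_2692c1_al.ThreeTorsion

open Pool.Agent.X272.Alt

universe u v

/-- Over every commutative ring `Φ` in which `3` is not invertible, the free alternative
`Φ`-algebra on a set `X` with at least six elements contains a nonzero `f` with `3 f = 0`; if
moreover `3` is not a zero divisor in `Φ` (for instance `Φ = ℤ`) then it is not a free
`Φ`-module. -/
theorem result (Φ : Type u) [CommRing Φ] (X : Type v) (x : Fin 6 → X)
    (hx : Function.Injective x) (h3 : ¬ IsUnit (3 : Φ)) :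
    (∃ f : FreeAlt Φ X, f ≠ 0 ∧ (3 : Φ) • f = 0) ∧
      ((∀ a : Φ, 3 * a = 0 → a = 0) → ¬ Module.Free Φ (FreeAlt Φ X)) := by
  have key : ∃ f : FreeAlt Φ X, f ≠ 0 ∧ (3 : Φ) • f = 0 := by
    refine ⟨Submodule.Quotient.mk (tv (R := FreeNonUnitalNonAssocAlgebra Φ X)
      (FreeNonUnitalNonAssocAlgebra.of Φ (x 0)) (FreeNonUnitalNonAssocAlgebra.of Φ (x 1))
      (FreeNonUnitalNonAssocAlgebra.of Φ (x 2)) (FreeNonUnitalNonAssocAlgebra.of Φ (x 3))
      (FreeNonUnitalNonAssocAlgebra.of Φ (x 4)) (FreeNonUnitalNonAssocAlgebra.of Φ (x 5))), ?_, ?_⟩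
    · intro h
      exact tv_not_mem h3 x hx ((Submodule.Quotient.mk_eq_zero _).mp h)
    · rw [← Submodule.Quotient.mk_smul, Submodule.Quotient.mk_eq_zero]
      have h := three_tv_mem (Φ := Φ) x
      rw [← Int.cast_smul_eq_zsmul Φ] at h
      exact_mod_cast h
  refine ⟨key, fun hz hfree => ?_⟩
  obtain ⟨f, hf, h⟩ := key
  have b := Module.Free.chooseBasis Φ (FreeAlt Φ X)
  apply hf
  apply b.repr.injective
  rw [map_zero]
  refine Finsupp.ext fun i => ?_
  apply hz
  have h2 := congrArg (fun v => b.repr v i) h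
  simpa using h2

end Pool.Agent.Results.MP_2692c1_al.ThreeTorsion
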